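import Pool.Agent.helper26.B3.Defs
import Pool.Agent.helper26.B3.Table
import Pool.Agent.helper16.B3.Cert

/-!
# The tables of the logistic function are correct
-/

set_option autoImplicit false

namespace Pool.Agent.helper16.B3

open Pool.Agent.helper26.B3 Real

lemma near_abs {x y c : ℕ} (h : near x y c = true) : |(x : ℝ) - y| ≤ c := by
  unfold near at h
  rw [Bool.and_eq_true, Nat.ble_eq, Nat.ble_eq] at h
  have h1 : (x : ℝ) ≤ y + c := by exact_mod_cast h.1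
  have h2 : (y : ℝ) ≤ x + c := by exact_mod_cast h.2
  rw [abs_le]
  constructor <;> linarith

/-- scaled entries -/
noncomputable def a (n : ℕ) : ℝ := (getA n : ℝ) / 2 ^ 128

noncomputable def b (n : ℕ) : ℝ := (getB n : ℝ) / 2 ^ 128

/-- the artanh polynomial -/
noncomputable def P (x : ℝ) : ℝ := 2 * (x + x ^ 3 / 3 + x ^ 5 / 5 + x ^ 7 / 7 + x ^ 9 / 9)

lemma a_nonneg (n : ℕ) : 0 ≤ a n := by unfold a; positivity

lemma a_zero : a 0 = 1 := by
  unfold a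
  rw [chkA0]
  norm_num

lemma a_last : a 2049 = 0 := by
  unfold a
  rw [chkAN]
  norm_num

lemma b_last : b 2049 = 0 := by
  unfold b
  rw [chkBN]
  norm_num

/-- raw facts from the checker -/
lemma chk_raw (n : ℕ) (hn : n < 2049) :
    getA (n + 1) ≤ getA n ∧ getA n ≤ 2 ^ 128 ∧
    (n < 2048 → near (getA (n + 1) * 2 ^ 128) (getA n * qq) (2 ^ 128) = true) ∧
    chkB (getA n - getA (n + 1)) (2 * 2 ^ 128 + getA n + getA (n + 1)) (getB n) (getB (n + 1)) =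
      true ∧ chkS n (getA n) (getB n) = true := by
  have h := allB_spec chkAll n hn
  unfold chk chkAB chkE at h
  simp only [Bool.and_eq_true, Bool.or_eq_true, Nat.ble_eq] at h
  obtain ⟨h1, ⟨h2, h3⟩, h4, h5⟩ := h
  refine ⟨h1, h2, fun hn' => ?_, h4, h5⟩
  rcases h3 with h3 | h3
  · omega
  · exact h3

lemma a_le_one (n : ℕ) (hn : n < 2049) : a n ≤ 1 := by
  unfold a
  rw [div_le_one (by positivity)]
  exact_mod_cast (chk_raw n hn).2.1

lemma a_anti (n : ℕ) (hn : n < 2049) : a (n + 1) ≤ a n := by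
  unfold a
  have h : (getA (n + 1) : ℝ) ≤ getA n := by exact_mod_cast (chk_raw n hn).1
  gcongr

lemma a_rec (n : ℕ) (hn : n < 2048) :
    |a (n + 1) - a n * ((qq : ℝ) / 2 ^ 128)| ≤ 1 / 2 ^ 128 := by
  have h := near_abs ((chk_raw n (by omega)).2.2.1 hn)
  set_option simprocs false in push_cast at h
  have e : a (n + 1) - a n * ((qq : ℝ) / 2 ^ 128) =
      ((getA (n + 1) : ℝ) * 2 ^ 128 - getA n * qq) / (2 ^ 128 * 2 ^ 128) := by
    unfold a
    field_simp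
  rw [e, abs_div, abs_of_pos (by positivity : (0 : ℝ) < 2 ^ 128 * 2 ^ 128),
    div_le_div_iff₀ (by positivity) (by positivity)]
  calc |(getA (n + 1) : ℝ) * 2 ^ 128 - getA n * qq| * 2 ^ 128 ≤ 2 ^ 128 * 2 ^ 128 := by gcongr
    _ = 1 * (2 ^ 128 * 2 ^ 128) := by ring

/-- the argument of artanh -/
noncomputable def xx (n : ℕ) : ℝ := (a n - a (n + 1)) / (2 + a n + a (n + 1))

lemma xx_facts (n : ℕ) (hn : n < 2049) : 0 ≤ xx n ∧ xx n ≤ 1 / 256 ∧
    |P (xx n) - (b n - b (n + 1))| ≤ 2 ^ 42 / 2 ^ 128 := by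
  obtain ⟨h1, -, -, h4, -⟩ := chk_raw n hn
  unfold chkB at h4
  simp only [Bool.and_eq_true, Nat.ble_eq] at h4
  obtain ⟨h5, h6, h7⟩ := h4
  have h5' := near_abs h5
  have hU : ((getA n - getA (n + 1) : ℕ) : ℝ) = (getA n : ℝ) - getA (n + 1) := Nat.cast_sub h1
  have hB : ((getB n - getB (n + 1) : ℕ) : ℝ) = (getB n : ℝ) - getB (n + 1) := Nat.cast_sub h7
  have ha := a_nonneg n
  have ha' := a_nonneg (n + 1)
  have hpos : 0 < 2 + a n + a (n + 1) := by linarith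
  have h6' : (256 : ℝ) * ((getA n - getA (n + 1) : ℕ) : ℝ) ≤
      2 * 2 ^ 128 + getA n + getA (n + 1) := by exact_mod_cast h6
  rw [hU] at h6'
  have hA : (getA n : ℝ) = a n * 2 ^ 128 := by unfold a; field_simp
  have hA' : (getA (n + 1) : ℝ) = a (n + 1) * 2 ^ 128 := by unfold a; field_simp
  have hBn : (getB n : ℝ) = b n * 2 ^ 128 := by unfold b; field_simp
  have hBn' : (getB (n + 1) : ℝ) = b (n + 1) * 2 ^ 128 := by unfold b; field_simp
  refine ⟨div_nonneg (by linarith [a_anti n hn]) hpos.le, ?_, ?_⟩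
  · unfold xx
    rw [div_le_div_iff₀ hpos (by norm_num)]
    rw [hA, hA'] at h6'
    have h2 : (0 : ℝ) < 2 ^ 128 := by positivity
    have h3 : (256 * (a n - a (n + 1))) * 2 ^ 128 ≤ (2 + a n + a (n + 1)) * 2 ^ 128 := by
      linarith
    have h8 := le_of_mul_le_mul_right h3 h2
    linarith
  · set_option simprocs false in push_cast at h5'
    rw [hU, hB, hA, hA', hBn, hBn'] at h5'
    set T : ℝ := 2 ^ 128 with hT
    have hTpos : 0 < T := by positivity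
    set D : ℝ := 2 * T + a n * T + a (n + 1) * T with hD
    have hDe : D = (2 + a n + a (n + 1)) * T := by rw [hD]; ring
    have hDpos : 0 < D := by rw [hDe]; positivity
    have hx : a n * T - a (n + 1) * T = xx n * D := by
      rw [hDe]
      unfold xx
      field_simp
    rw [hx] at h5'
    clear_value D T
    have hp : 0 < 315 * D ^ 9 * T := mul_pos (mul_pos (by norm_num) (pow_pos hDpos 9)) hTpos
    have e : T * (630 * (xx n * D) * D ^ 8 + 210 * (xx n * D) ^ 3 * D ^ 6 +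
        126 * (xx n * D) ^ 5 * D ^ 4 + 90 * (xx n * D) ^ 7 * D ^ 2 + 70 * (xx n * D) ^ 9) -
        315 * D ^ 9 * (b n * T - b (n + 1) * T) =
        (315 * D ^ 9 * T) * (P (xx n) - (b n - b (n + 1))) := by
      unfold P
      ring
    rw [e, abs_mul, abs_of_pos hp] at h5'
    have h9 : (315 * D ^ 9 * T) * |P (xx n) - (b n - b (n + 1))| ≤
        (315 * D ^ 9 * T) * (2 ^ 42 / T) := by
      calc _ ≤ 315 * 2 ^ 42 * D ^ 9 := h5'
        _ = _ := by field_simp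
    exact le_of_mul_le_mul_left h9 hp

lemma log_P (x : ℝ) (h0 : 0 ≤ x) (h1 : x ≤ 1 / 256) :
    |P x - (Real.log (1 + x) - Real.log (1 - x))| ≤ 1 / 2 ^ 86 := by
  have hx : |x| < 1 := by rw [abs_of_nonneg h0]; linarith
  have hx' : |(-x)| < 1 := by rwa [abs_neg]
  have h2 := Real.abs_log_sub_add_sum_range_le hx 10
  have h3 := Real.abs_log_sub_add_sum_range_le hx' 10
  rw [abs_neg, sub_neg_eq_add] at h3
  rw [abs_of_nonneg h0] at h2 h3
  have hb : x ^ (10 + 1) / (1 - x) ≤ 1 / 2 ^ 87 := by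
    rw [div_le_div_iff₀ (by linarith) (by positivity)]
    have h4 : x ^ (10 + 1) ≤ (1 / 256) ^ (10 + 1) := pow_le_pow_left₀ h0 h1 _
    have h5 : x ^ (10 + 1) * 2 ^ 87 ≤ (1 / 256) ^ (10 + 1) * 2 ^ 87 := by gcongr
    have h6 : ((1 : ℝ) / 256) ^ (10 + 1) * 2 ^ 87 = 1 / 2 := by norm_num
    rw [h6] at h5
    calc x ^ (10 + 1) * 2 ^ 87 ≤ 1 / 2 := h5
      _ ≤ 1 * (1 - x) := by linarith
  have e : P x - (Real.log (1 + x) - Real.log (1 - x)) =
      (∑ i ∈ Finset.range 10, x ^ (i + 1) / ((i : ℝ) + 1) + Real.log (1 - x)) -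
      (∑ i ∈ Finset.range 10, (-x) ^ (i + 1) / ((i : ℝ) + 1) + Real.log (1 + x)) := by
    unfold P
    simp only [Finset.sum_range_succ, Finset.sum_range_zero]
    push_cast
    ring
  rw [e]
  calc _ ≤ _ := abs_sub _ _
    _ ≤ 1 / 2 ^ 87 + 1 / 2 ^ 87 := add_le_add (h2.trans hb) (h3.trans hb)
    _ = 1 / 2 ^ 86 := by norm_num

lemma b_step (n : ℕ) (hn : n < 2049) :
    |(b n - b (n + 1)) - (Real.log (1 + a n) - Real.log (1 + a (n + 1)))| ≤ 1 / 2 ^ 85 := by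
  obtain ⟨h0, h1, h2⟩ := xx_facts n hn
  have h3 := log_P (xx n) h0 h1
  have ha := a_nonneg n
  have ha' := a_nonneg (n + 1)
  have e : Real.log (1 + xx n) - Real.log (1 - xx n) =
      Real.log (1 + a n) - Real.log (1 + a (n + 1)) := by
    rw [← Real.log_div (by linarith) (by linarith), ← Real.log_div (by linarith) (by linarith)]
    congr 1
    have h5 : 0 < 2 + a n + a (n + 1) := by linarith
    have e1 : 1 + xx n = 2 * (1 + a n) / (2 + a n + a (n + 1)) := by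
      unfold xx
      field_simp
      ring
    have e2 : 1 - xx n = 2 * (1 + a (n + 1)) / (2 + a n + a (n + 1)) := by
      unfold xx
      field_simp
      ring
    rw [e1, e2]
    have h6 : 0 < 1 + a (n + 1) := by linarith
    field_simp
  rw [e] at h3
  have e3 : (b n - b (n + 1)) - (Real.log (1 + a n) - Real.log (1 + a (n + 1))) =
      (P (xx n) - (Real.log (1 + a n) - Real.log (1 + a (n + 1)))) -
      (P (xx n) - (b n - b (n + 1))) := by ring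
  rw [e3]
  calc _ ≤ _ := abs_sub _ _
    _ ≤ 1 / 2 ^ 86 + 2 ^ 42 / 2 ^ 128 := add_le_add h3 h2
    _ = 1 / 2 ^ 85 := by norm_num

lemma b_log (m : ℕ) (hm : m ≤ 2049) :
    |b (2049 - m) - Real.log (1 + a (2049 - m))| ≤ m * (1 / 2 ^ 85) := by
  induction m with
  | zero =>
    rw [Nat.sub_zero, b_last, a_last]
    simp
  | succ m ih =>
    have h1 := ih (by omega)
    have h2 := b_step (2049 - (m + 1)) (by omega)
    have e : 2049 - (m + 1) + 1 = 2049 - m := by omega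
    rw [e] at h2
    have e2 : b (2049 - (m + 1)) - Real.log (1 + a (2049 - (m + 1))) =
        ((b (2049 - (m + 1)) - b (2049 - m)) -
          (Real.log (1 + a (2049 - (m + 1))) - Real.log (1 + a (2049 - m)))) +
        (b (2049 - m) - Real.log (1 + a (2049 - m))) := by ring
    rw [e2]
    refine (abs_add_le _ _).trans ?_
    calc _ ≤ (1 : ℝ) / 2 ^ 85 + (m : ℝ) * (1 / 2 ^ 85) := add_le_add h2 h1
      _ = ((m + 1 : ℕ) : ℝ) * (1 / 2 ^ 85) := by push_cast; ring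

lemma b_log' (n : ℕ) (hn : n ≤ 2048) : |b n - Real.log (1 + a n)| ≤ 1 / 2 ^ 73 := by
  have h := b_log (2049 - n) (by omega)
  have e : 2049 - (2049 - n) = n := by omega
  rw [e] at h
  refine h.trans ?_
  have h2 : ((2049 - n : ℕ) : ℝ) ≤ 2049 := by exact_mod_cast Nat.sub_le _ _
  calc ((2049 - n : ℕ) : ℝ) * (1 / 2 ^ 85) ≤ 2049 * (1 / 2 ^ 85) := by gcongr
    _ ≤ 1 / 2 ^ 73 := by norm_num

lemma q_bound : |Real.exp (-1 / 64) - (qq : ℝ) / 2 ^ 128| ≤ 1 / 2 ^ 127 := by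
  have h := Real.exp_bound (x := -1 / 64) (by norm_num [abs_le]) (n := 20) (by norm_num)
  have h2 : |∑ m ∈ Finset.range 20, (-1 / 64 : ℝ) ^ m / (m.factorial : ℝ) - (qq : ℝ) / 2 ^ 128| ≤
      1 / 2 ^ 128 := by
    simp only [Finset.sum_range_succ, Finset.sum_range_zero, Nat.factorial, qq]
    norm_num [abs_le]
  have h3 : |(-1 / 64 : ℝ)| ^ 20 * (((20 : ℕ).succ : ℝ) / (((20 : ℕ).factorial : ℝ) * (20 : ℕ))) ≤
      1 / 2 ^ 128 := by
    simp only [Nat.factorial]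
    norm_num [abs_of_neg, abs_of_pos]
  calc |Real.exp (-1 / 64) - (qq : ℝ) / 2 ^ 128|
      = |(Real.exp (-1 / 64) - ∑ m ∈ Finset.range 20, (-1 / 64 : ℝ) ^ m / (m.factorial : ℝ)) +
        (∑ m ∈ Finset.range 20, (-1 / 64 : ℝ) ^ m / (m.factorial : ℝ) - (qq : ℝ) / 2 ^ 128)| := by
        congr 1; ring
    _ ≤ _ := abs_add_le _ _
    _ ≤ 1 / 2 ^ 128 + 1 / 2 ^ 128 := add_le_add (h.trans h3) h2
    _ = 1 / 2 ^ 127 := by norm_num

lemma a_exp (n : ℕ) (hn : n ≤ 2048) : |a n - Real.exp (-(n : ℝ) / 64)| ≤ n * (1 / 2 ^ 126) := by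
  induction n with
  | zero => rw [a_zero]; simp
  | succ n ih =>
    have h1 := ih (by omega)
    have h2 := a_rec n (by omega)
    have h3 := q_bound
    have e0 : Real.exp (-((n + 1 : ℕ) : ℝ) / 64) =
        Real.exp (-1 / 64) * Real.exp (-(n : ℝ) / 64) := by
      rw [← Real.exp_add]
      congr 1
      push_cast
      ring
    have e : a (n + 1) - Real.exp (-((n + 1 : ℕ) : ℝ) / 64) =
        (a (n + 1) - a n * ((qq : ℝ) / 2 ^ 128)) +
        a n * (-(Real.exp (-1 / 64) - (qq : ℝ) / 2 ^ 128)) +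
        Real.exp (-1 / 64) * (a n - Real.exp (-(n : ℝ) / 64)) := by
      rw [e0]
      ring
    have hq : Real.exp (-1 / 64) ≤ 1 := Real.exp_le_one_iff.2 (by norm_num)
    have ha := a_nonneg n
    have ha1 := a_le_one n (by omega)
    have h4 : |a n * (-(Real.exp (-1 / 64) - (qq : ℝ) / 2 ^ 128))| ≤ 1 / 2 ^ 127 := by
      rw [abs_mul, abs_neg, abs_of_nonneg ha]
      calc a n * |Real.exp (-1 / 64) - (qq : ℝ) / 2 ^ 128| ≤ 1 * (1 / 2 ^ 127) := by gcongr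
        _ = _ := one_mul _
    have h5 : |Real.exp (-1 / 64) * (a n - Real.exp (-(n : ℝ) / 64))| ≤ n * (1 / 2 ^ 126) := by
      rw [abs_mul, abs_of_pos (Real.exp_pos _)]
      calc Real.exp (-1 / 64) * |a n - Real.exp (-(n : ℝ) / 64)| ≤ 1 * (n * (1 / 2 ^ 126)) := by
            gcongr
        _ = _ := one_mul _
    rw [e]
    calc _ ≤ |(a (n + 1) - a n * ((qq : ℝ) / 2 ^ 128)) +
        a n * (-(Real.exp (-1 / 64) - (qq : ℝ) / 2 ^ 128))| +
        |Real.exp (-1 / 64) * (a n - Real.exp (-(n : ℝ) / 64))| := abs_add_le _ _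
      _ ≤ (|a (n + 1) - a n * ((qq : ℝ) / 2 ^ 128)| +
        |a n * (-(Real.exp (-1 / 64) - (qq : ℝ) / 2 ^ 128))|) +
        |Real.exp (-1 / 64) * (a n - Real.exp (-(n : ℝ) / 64))| := by
          gcongr
          exact abs_add_le _ _
      _ ≤ (1 / 2 ^ 128 + 1 / 2 ^ 127) + n * (1 / 2 ^ 126) := by gcongr
      _ ≤ ((n + 1 : ℕ) : ℝ) * (1 / 2 ^ 126) := by
          push_cast
          have : (1 : ℝ) / 2 ^ 128 + 1 / 2 ^ 127 ≤ 1 / 2 ^ 126 := by norm_num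
          linarith

lemma a_exp' (n : ℕ) (hn : n ≤ 2048) : |a n - Real.exp (-(n : ℝ) / 64)| ≤ 1 / 2 ^ 115 := by
  refine (a_exp n hn).trans ?_
  have h2 : (n : ℝ) ≤ 2048 := by exact_mod_cast hn
  calc (n : ℝ) * (1 / 2 ^ 126) ≤ 2048 * (1 / 2 ^ 126) := by gcongr
    _ = 1 / 2 ^ 115 := by norm_num

/-- facts on the tables -/
lemma tab_raw (n : ℕ) (hn : n ≤ 2048) :
    |(nS n : ℝ) * (1 + a n) - 2 ^ 64| ≤ 1 + a n ∧
    |(ns n : ℝ) * (1 + a n) ^ 2 - 2 ^ 64 * a n| ≤ (1 + a n) ^ 2 ∧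
    |(nL n : ℝ) - (2 ^ 64 * b n + n * 2 ^ 58)| ≤ 1 ∧
    2 ^ 58 * n ≤ nL n ∧ nS n ≤ 2 ^ 64 := by
  have h := (chk_raw n (by omega)).2.2.2.2
  unfold chkS at h
  simp only [Bool.and_eq_true, Nat.ble_eq] at h
  obtain ⟨h1, h2, h3, h4, h5⟩ := h
  have h1' := near_abs h1
  have h2' := near_abs h2
  have h3' := near_abs h3
  set_option simprocs false in push_cast at h1' h2' h3'
  have hA : (getA n : ℝ) = a n * 2 ^ 128 := by unfold a; field_simp
  have hBn : (getB n : ℝ) = b n * 2 ^ 128 := by unfold b; field_simp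
  rw [hA] at h1' h2'
  rw [hBn] at h3'
  have ha := a_nonneg n
  refine ⟨?_, ?_, ?_, h4, h5⟩
  · have e : (nS n : ℝ) * (2 ^ 128 + a n * 2 ^ 128) - 2 ^ 64 * 2 ^ 128 =
        2 ^ 128 * ((nS n : ℝ) * (1 + a n) - 2 ^ 64) := by ring
    rw [e, abs_mul, abs_of_pos (by positivity : (0 : ℝ) < 2 ^ 128)] at h1'
    refine le_of_mul_le_mul_left (h1'.trans (le_of_eq ?_)) (by positivity : (0 : ℝ) < 2 ^ 128)
    ring
  · have e : (ns n : ℝ) * (2 ^ 128 + a n * 2 ^ 128) ^ 2 - 2 ^ 64 * 2 ^ 128 * (a n * 2 ^ 128) =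
        (2 ^ 128) ^ 2 * ((ns n : ℝ) * (1 + a n) ^ 2 - 2 ^ 64 * a n) := by ring
    rw [e, abs_mul, abs_of_pos (by positivity : (0 : ℝ) < (2 ^ 128) ^ 2)] at h2'
    refine le_of_mul_le_mul_left (h2'.trans (le_of_eq ?_))
      (by positivity : (0 : ℝ) < (2 ^ 128) ^ 2)
    ring
  · have e : (nL n : ℝ) * 2 ^ 64 - (b n * 2 ^ 128 + n * 2 ^ 122) =
        2 ^ 64 * ((nL n : ℝ) - (2 ^ 64 * b n + n * 2 ^ 58)) := by ring
    rw [e, abs_mul, abs_of_pos (by positivity : (0 : ℝ) < 2 ^ 64)] at h3'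
    refine le_of_mul_le_mul_left (h3'.trans (le_of_eq ?_)) (by positivity : (0 : ℝ) < 2 ^ 64)
    ring

lemma spec_S (n : ℕ) (hn : n ≤ 2048) :
    |(2 : ℝ) ^ 64 * Real.sigmoid ((n : ℝ) / 64) - (nS n : ℝ)| ≤ 2 := by
  obtain ⟨h1, -⟩ := tab_raw n hn
  have h2 := a_exp' n hn
  have ha := a_nonneg n
  set E := Real.exp (-(n : ℝ) / 64) with hE
  have hEp : 0 < E := Real.exp_pos _
  have e : Real.sigmoid ((n : ℝ) / 64) = 1 / (1 + E) := by
    rw [Real.sigmoid_def, one_div, hE, neg_div]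
  rw [e]
  have h3 : |(2 : ℝ) ^ 64 * (1 / (1 + E)) - 2 ^ 64 * (1 / (1 + a n))| ≤ 1 := by
    have e2 : (2 : ℝ) ^ 64 * (1 / (1 + E)) - 2 ^ 64 * (1 / (1 + a n)) =
        2 ^ 64 * (a n - E) / ((1 + E) * (1 + a n)) := by
      field_simp
      ring
    rw [e2, abs_div, abs_of_pos (by positivity : 0 < (1 + E) * (1 + a n)), abs_mul,
      abs_of_pos (by positivity : (0 : ℝ) < 2 ^ 64), div_le_one (by positivity)]
    calc (2 : ℝ) ^ 64 * |a n - E| ≤ 2 ^ 64 * (1 / 2 ^ 115) := by gcongr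
      _ ≤ 1 * 1 := by norm_num
      _ ≤ (1 + E) * (1 + a n) := by
        refine mul_le_mul (by linarith) (by linarith) zero_le_one (by linarith)
  have h4 : |(2 : ℝ) ^ 64 * (1 / (1 + a n)) - (nS n : ℝ)| ≤ 1 := by
    have hp : 0 < 1 + a n := by linarith
    have e2 : (2 : ℝ) ^ 64 * (1 / (1 + a n)) - (nS n : ℝ) =
        -((nS n : ℝ) * (1 + a n) - 2 ^ 64) / (1 + a n) := by
      field_simp
      ring
    rw [e2, abs_div, abs_neg, abs_of_pos hp, div_le_one hp]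
    exact h1
  calc _ = |((2 : ℝ) ^ 64 * (1 / (1 + E)) - 2 ^ 64 * (1 / (1 + a n))) +
        ((2 : ℝ) ^ 64 * (1 / (1 + a n)) - (nS n : ℝ))| := by congr 1; ring
    _ ≤ _ := abs_add_le _ _
    _ ≤ 1 + 1 := add_le_add h3 h4
    _ = 2 := by norm_num

lemma spec_s (n : ℕ) (hn : n ≤ 2048) :
    |(2 : ℝ) ^ 64 * s ((n : ℝ) / 64) - (ns n : ℝ)| ≤ 2 := by
  obtain ⟨-, h1, -⟩ := tab_raw n hn
  have h2 := a_exp' n hn
  have ha := a_nonneg n
  have ha1 := a_le_one n (by omega)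
  set E := Real.exp (-(n : ℝ) / 64) with hE
  have hEp : 0 < E := Real.exp_pos _
  have hE1 : E ≤ 1 := Real.exp_le_one_iff.2 (by
    rw [neg_div]; exact neg_nonpos.2 (by positivity))
  have e : s ((n : ℝ) / 64) = E / (1 + E) ^ 2 := by
    unfold s
    have e1 : Real.sigmoid ((n : ℝ) / 64) = 1 / (1 + E) := by
      rw [Real.sigmoid_def, one_div, hE, neg_div]
    rw [e1]
    field_simp
    ring
  rw [e]
  have h3 : |(2 : ℝ) ^ 64 * (E / (1 + E) ^ 2) - 2 ^ 64 * (a n / (1 + a n) ^ 2)| ≤ 1 := by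
    have e2 : (2 : ℝ) ^ 64 * (E / (1 + E) ^ 2) - 2 ^ 64 * (a n / (1 + a n) ^ 2) =
        -(2 ^ 64 * ((a n - E) * (1 - a n * E))) / ((1 + E) ^ 2 * (1 + a n) ^ 2) := by
      field_simp
      ring
    rw [e2, abs_div, abs_neg, abs_of_pos (by positivity : 0 < (1 + E) ^ 2 * (1 + a n) ^ 2),
      abs_mul, abs_mul, abs_of_pos (by positivity : (0 : ℝ) < 2 ^ 64), div_le_one (by positivity)]
    have h5 : |1 - a n * E| ≤ 1 := by
      rw [abs_le]
      constructor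
      · nlinarith
      · nlinarith
    calc (2 : ℝ) ^ 64 * (|a n - E| * |1 - a n * E|) ≤ 2 ^ 64 * ((1 / 2 ^ 115) * 1) := by gcongr
      _ ≤ 1 * 1 := by norm_num
      _ ≤ (1 + E) ^ 2 * (1 + a n) ^ 2 := by
        refine mul_le_mul ?_ ?_ zero_le_one (by positivity)
        · nlinarith
        · nlinarith
  have h4 : |(2 : ℝ) ^ 64 * (a n / (1 + a n) ^ 2) - (ns n : ℝ)| ≤ 1 := by
    have hp : 0 < (1 + a n) ^ 2 := by positivity
    have e2 : (2 : ℝ) ^ 64 * (a n / (1 + a n) ^ 2) - (ns n : ℝ) =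
        -((ns n : ℝ) * (1 + a n) ^ 2 - 2 ^ 64 * a n) / (1 + a n) ^ 2 := by
      field_simp
      ring
    rw [e2, abs_div, abs_neg, abs_of_pos hp, div_le_one hp]
    exact h1
  calc _ = |((2 : ℝ) ^ 64 * (E / (1 + E) ^ 2) - 2 ^ 64 * (a n / (1 + a n) ^ 2)) +
        ((2 : ℝ) ^ 64 * (a n / (1 + a n) ^ 2) - (ns n : ℝ))| := by congr 1; ring
    _ ≤ _ := abs_add_le _ _
    _ ≤ 1 + 1 := add_le_add h3 h4
    _ = 2 := by norm_num

lemma log_lip (x y : ℝ) (hx : 0 ≤ x) (hy : 0 ≤ y) :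
    |Real.log (1 + x) - Real.log (1 + y)| ≤ |x - y| := by
  have key : ∀ u v : ℝ, 0 ≤ u → 0 ≤ v → Real.log (1 + u) - Real.log (1 + v) ≤ |u - v| := by
    intro u v hu hv
    rw [← Real.log_div (by linarith) (by linarith)]
    have h1 := Real.log_le_sub_one_of_pos (x := (1 + u) / (1 + v)) (by positivity)
    have h2 : (1 + u) / (1 + v) - 1 = (u - v) / (1 + v) := by
      field_simp
      ring
    rw [h2] at h1
    refine h1.trans ?_
    calc (u - v) / (1 + v) ≤ |u - v| / (1 + v) := by gcongr; exact le_abs_self _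
      _ ≤ |u - v| := div_le_self (abs_nonneg _) (by linarith)
  rw [abs_le]
  constructor
  · have := key y x hy hx
    rw [abs_sub_comm] at this
    linarith
  · exact key x y hx hy

lemma spec_L (n : ℕ) (hn : n ≤ 2048) :
    |(2 : ℝ) ^ 64 * Pool.Agent.helper26.PS.L ((n : ℝ) / 64) - (nL n : ℝ)| ≤ 2 := by
  obtain ⟨-, -, h1, -⟩ := tab_raw n hn
  have h2 := a_exp' n hn
  have hb := b_log' n hn
  have ha := a_nonneg n
  set E := Real.exp (-(n : ℝ) / 64) with hE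
  have hEp : 0 < E := Real.exp_pos _
  have e : Pool.Agent.helper26.PS.L ((n : ℝ) / 64) = (n : ℝ) / 64 + Real.log (1 + E) := by
    unfold Pool.Agent.helper26.PS.L
    have e1 : 1 + Real.exp ((n : ℝ) / 64) = Real.exp ((n : ℝ) / 64) * (1 + E) := by
      rw [hE, mul_add, ← Real.exp_add]
      have : (n : ℝ) / 64 + -(n : ℝ) / 64 = 0 := by ring
      rw [this, Real.exp_zero]
      ring
    rw [e1, Real.log_mul (Real.exp_pos _).ne' (by positivity), Real.log_exp]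
  have h3 := log_lip (a n) E ha hEp.le
  rw [e]
  have e2 : (2 : ℝ) ^ 64 * ((n : ℝ) / 64 + Real.log (1 + E)) - (nL n : ℝ) =
      -((nL n : ℝ) - (2 ^ 64 * b n + n * 2 ^ 58)) +
      (2 ^ 64 * (-(b n - Real.log (1 + a n))) +
        2 ^ 64 * (-(Real.log (1 + a n) - Real.log (1 + E)))) := by
    ring
  rw [e2]
  have h5 : |(2 : ℝ) ^ 64 * (-(b n - Real.log (1 + a n)))| ≤ 1 / 2 := by
    rw [abs_mul, abs_neg, abs_of_pos (by positivity : (0 : ℝ) < 2 ^ 64)]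
    calc (2 : ℝ) ^ 64 * |b n - Real.log (1 + a n)| ≤ 2 ^ 64 * (1 / 2 ^ 73) := by gcongr
      _ ≤ 1 / 2 := by norm_num
  have h6 : |(2 : ℝ) ^ 64 * (-(Real.log (1 + a n) - Real.log (1 + E)))| ≤ 1 / 2 := by
    rw [abs_mul, abs_neg, abs_of_pos (by positivity : (0 : ℝ) < 2 ^ 64)]
    calc (2 : ℝ) ^ 64 * |Real.log (1 + a n) - Real.log (1 + E)| ≤ 2 ^ 64 * (1 / 2 ^ 115) := by
          gcongr
          exact h3.trans h2
      _ ≤ 1 / 2 := by norm_num
  calc _ ≤ |-((nL n : ℝ) - (2 ^ 64 * b n + n * 2 ^ 58))| +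
        |(2 : ℝ) ^ 64 * (-(b n - Real.log (1 + a n))) +
        2 ^ 64 * (-(Real.log (1 + a n) - Real.log (1 + E)))| := abs_add_le _ _
    _ ≤ 1 + (1 / 2 + 1 / 2) := by
        rw [abs_neg]
        exact add_le_add h1 ((abs_add_le _ _).trans (add_le_add h5 h6))
    _ = 2 := by norm_num

end Pool.Agent.helper16.B3

namespace Pool.Agent.helper26.B3

open Real

theorem TS_spec (n : ℤ) (h : n.natAbs ≤ 2048) :
    |(2 : ℝ) ^ 64 * Real.sigmoid ((n : ℝ) / 64) - (TS n : ℝ)| ≤ 16 := by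
  rcases n with m | m
  · have h1 := Pool.Agent.helper16.B3.spec_S m h
    show |(2 : ℝ) ^ 64 * Real.sigmoid (((Int.ofNat m : ℤ) : ℝ) / 64) - ((Int.ofNat (nS m) : ℤ) : ℝ)| ≤ 16
    simp only [Int.ofNat_eq_natCast, Int.cast_natCast]
    linarith
  · have h0 : m + 1 ≤ 2048 := h
    have h1 := Pool.Agent.helper16.B3.spec_S (m + 1) h0
    have h2 := (Pool.Agent.helper16.B3.tab_raw (m + 1) h0).2.2.2.2
    show |(2 : ℝ) ^ 64 * Real.sigmoid (((Int.negSucc m : ℤ) : ℝ) / 64) -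
      ((Int.ofNat (18446744073709551616 - nS (m + 1)) : ℤ) : ℝ)| ≤ 16
    have e1 : (((Int.negSucc m : ℤ) : ℝ) / 64) = -(((m + 1 : ℕ) : ℝ) / 64) := by
      rw [Int.cast_negSucc]
      ring
    have e2 : ((18446744073709551616 - nS (m + 1) : ℕ) : ℝ) = 2 ^ 64 - (nS (m + 1) : ℝ) := by
      rw [Nat.cast_sub (by simpa using h2)]
      norm_num
    rw [e1, Real.sigmoid_neg, Int.ofNat_eq_natCast, Int.cast_natCast, e2]
    have e3 : (2 : ℝ) ^ 64 * (1 - Real.sigmoid (((m + 1 : ℕ) : ℝ) / 64)) -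
        (2 ^ 64 - (nS (m + 1) : ℝ)) =
        -((2 : ℝ) ^ 64 * Real.sigmoid (((m + 1 : ℕ) : ℝ) / 64) - (nS (m + 1) : ℝ)) := by ring
    rw [e3, abs_neg]
    linarith

theorem TL_spec (n : ℤ) (h : n.natAbs ≤ 2048) :
    |(2 : ℝ) ^ 64 * PS.L ((n : ℝ) / 64) - (TL n : ℝ)| ≤ 16 := by
  rcases n with m | m
  · have h1 := Pool.Agent.helper16.B3.spec_L m h
    show |(2 : ℝ) ^ 64 * PS.L (((Int.ofNat m : ℤ) : ℝ) / 64) - ((Int.ofNat (nL m) : ℤ) : ℝ)| ≤ 16
    simp only [Int.ofNat_eq_natCast, Int.cast_natCast]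
    linarith
  · have h0 : m + 1 ≤ 2048 := h
    have h1 := Pool.Agent.helper16.B3.spec_L (m + 1) h0
    have h2 := (Pool.Agent.helper16.B3.tab_raw (m + 1) h0).2.2.2.1
    show |(2 : ℝ) ^ 64 * PS.L (((Int.negSucc m : ℤ) : ℝ) / 64) -
      ((Int.ofNat (nL (m + 1) - 288230376151711744 * (m + 1)) : ℤ) : ℝ)| ≤ 16
    have e1 : (((Int.negSucc m : ℤ) : ℝ) / 64) = -(((m + 1 : ℕ) : ℝ) / 64) := by
      rw [Int.cast_negSucc]
      ring
    have e2 : ((nL (m + 1) - 288230376151711744 * (m + 1) : ℕ) : ℝ) =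
        (nL (m + 1) : ℝ) - 2 ^ 58 * ((m + 1 : ℕ) : ℝ) := by
      rw [Nat.cast_sub (by simpa using h2)]
      push_cast
      norm_num
    have e4 : ∀ t : ℝ, PS.L (-t) = PS.L t - t := by
      intro t
      unfold PS.L
      have e5 : 1 + Real.exp t = Real.exp t * (1 + Real.exp (-t)) := by
        rw [mul_add, ← Real.exp_add, add_neg_cancel, Real.exp_zero]
        ring
      rw [e5, Real.log_mul (Real.exp_pos _).ne' (by positivity), Real.log_exp]
      ring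
    rw [e1, e4, Int.ofNat_eq_natCast, Int.cast_natCast, e2]
    have e3 : (2 : ℝ) ^ 64 * (PS.L (((m + 1 : ℕ) : ℝ) / 64) - ((m + 1 : ℕ) : ℝ) / 64) -
        ((nL (m + 1) : ℝ) - 2 ^ 58 * ((m + 1 : ℕ) : ℝ)) =
        (2 : ℝ) ^ 64 * PS.L (((m + 1 : ℕ) : ℝ) / 64) - (nL (m + 1) : ℝ) := by ring
    rw [e3]
    linarith

theorem Ts_spec (n : ℤ) (h : n.natAbs ≤ 2048) :
    |(2 : ℝ) ^ 64 * s ((n : ℝ) / 64) - (Ts n : ℝ)| ≤ 16 := by
  have h1 := Pool.Agent.helper16.B3.spec_s n.natAbs h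
  have e1 : s ((n : ℝ) / 64) = s ((n.natAbs : ℝ) / 64) := by
    have e2 : ∀ t : ℝ, s (-t) = s t := by
      intro t
      unfold s
      rw [Real.sigmoid_neg]
      ring
    rcases Int.natAbs_eq n with h2 | h2
    · have h3 : (n : ℝ) = (n.natAbs : ℝ) :=
        (congrArg (fun k : ℤ => (k : ℝ)) h2).trans (Int.cast_natCast _)
      rw [← h3]
    · have h3 : (n : ℝ) = -(n.natAbs : ℝ) :=
        (congrArg (fun k : ℤ => (k : ℝ)) h2).trans (by
          rw [Int.cast_neg, Int.cast_natCast])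
      rw [h3, neg_div, e2]
  rw [e1]
  show |(2 : ℝ) ^ 64 * s ((n.natAbs : ℝ) / 64) - ((Int.ofNat (ns n.natAbs) : ℤ) : ℝ)| ≤ 16
  simp only [Int.ofNat_eq_natCast, Int.cast_natCast]
  linarith

end Pool.Agent.helper26.B3
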