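import Pool.Agent.helper26.B3.Fdef
import Pool.Agent.helper16.B3.Tab

/-!
# Soundness of the corner check
-/

set_option autoImplicit false

namespace Pool.Agent.helper26.B3

open Real

lemma corner_TS {n : ℤ} (h : n.natAbs ≤ 2048) {t : ℝ} (ht : t = (n : ℝ) / 64) :
    |(TS n : ℝ) - 2 ^ 64 * Real.sigmoid t| ≤ 16 := by
  rw [ht, abs_sub_comm]
  exact TS_spec n h

lemma corner_TL {n : ℤ} (h : n.natAbs ≤ 2048) {t : ℝ} (ht : t = (n : ℝ) / 64) :
    |(TL n : ℝ) - 2 ^ 64 * L t| ≤ 16 := by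
  rw [ht, abs_sub_comm]
  exact TL_spec n h

lemma corner_Ts {n : ℤ} (h : n.natAbs ≤ 2048) {t : ℝ} (ht : t = (n : ℝ) / 64) :
    |(Ts n : ℝ) - 2 ^ 64 * s t| ≤ 16 := by
  rw [ht, abs_sub_comm]
  exact Ts_spec n h

lemma corner_ab (x : ℤ) : ((ab x : ℤ) : ℝ) = |(x : ℝ)| := by
  unfold ab
  rw [Int.ofNat_eq_natCast, Int.natCast_natAbs, Int.cast_abs]

lemma corner_term {x e c : ℝ} (h : |e| ≤ c) : |x * e| ≤ |x| * c := by
  rw [abs_mul]
  exact mul_le_mul_of_nonneg_left h (abs_nonneg x)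

/-- error of `lin7` -/
lemma corner_lin7 {x1 x2 x3 x4 x5 x6 x7 Sa Sb Sd La Lb Ld sz : ℤ} {sa sb sc la lb lc z : ℝ}
    (h1 : |(Sa : ℝ) - 2 ^ 64 * sa| ≤ 16) (h2 : |(Sb : ℝ) - 2 ^ 64 * sb| ≤ 16)
    (h3 : |(Sd : ℝ) - 2 ^ 64 * sc| ≤ 16) (h4 : |(La : ℝ) - 2 ^ 64 * la| ≤ 16)
    (h5 : |(Lb : ℝ) - 2 ^ 64 * lb| ≤ 16) (h6 : |(Ld : ℝ) - 2 ^ 64 * lc| ≤ 16)
    (h7 : |(sz : ℝ) - 2 ^ 64 * z| ≤ 16) :
    |((lin7 x1 x2 x3 x4 x5 x6 x7 Sa Sb Sd La Lb Ld sz : ℤ) : ℝ) -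
      2 ^ 64 * (x1 * sa + x2 * sb + x3 * sc + x4 * la + x5 * lb + x6 * lc - x7 * z)| ≤
    ((16 * (ab x1 + ab x2 + ab x3 + ab x4 + ab x5 + ab x6 + ab x7) : ℤ) : ℝ) := by
  have e : ((lin7 x1 x2 x3 x4 x5 x6 x7 Sa Sb Sd La Lb Ld sz : ℤ) : ℝ) -
      2 ^ 64 * (x1 * sa + x2 * sb + x3 * sc + x4 * la + x5 * lb + x6 * lc - x7 * z) =
      x1 * ((Sa : ℝ) - 2 ^ 64 * sa) + x2 * ((Sb : ℝ) - 2 ^ 64 * sb) +
      x3 * ((Sd : ℝ) - 2 ^ 64 * sc) + x4 * ((La : ℝ) - 2 ^ 64 * la) +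
      x5 * ((Lb : ℝ) - 2 ^ 64 * lb) + x6 * ((Ld : ℝ) - 2 ^ 64 * lc) -
      x7 * ((sz : ℝ) - 2 ^ 64 * z) := by
    unfold lin7
    push_cast
    ring
  rw [e]
  have k1 := abs_le.1 (corner_term (x := (x1 : ℝ)) h1)
  have k2 := abs_le.1 (corner_term (x := (x2 : ℝ)) h2)
  have k3 := abs_le.1 (corner_term (x := (x3 : ℝ)) h3)
  have k4 := abs_le.1 (corner_term (x := (x4 : ℝ)) h4)
  have k5 := abs_le.1 (corner_term (x := (x5 : ℝ)) h5)
  have k6 := abs_le.1 (corner_term (x := (x6 : ℝ)) h6)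
  have k7 := abs_le.1 (corner_term (x := (x7 : ℝ)) h7)
  push_cast
  rw [corner_ab, corner_ab, corner_ab, corner_ab, corner_ab, corner_ab, corner_ab, abs_le]
  constructor <;> linarith [k1.1, k1.2, k2.1, k2.2, k3.1, k3.2, k4.1, k4.2, k5.1, k5.2, k6.1,
    k6.2, k7.1, k7.2]

/-- closed form of `FF` -/
lemma corner_FF {a b c d mu V W t0 t1 t2 : ℝ} (hV : V ≠ 0) (hW : W ≠ 0)
    (h01 : t1 - t0 = W / 64) (h12 : t2 - t1 = V / 64) :
    FF a b c d mu t0 t1 t2 * (W ^ 3 * V ^ 3) =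
      (24576 * c * (W * V ^ 3) - 64 * a * (W ^ 2 * V ^ 3)) * sigmoid t0 +
      (64 * a * (W ^ 2 * V ^ 3) + 24576 * c * (W * V ^ 3) - 64 * b * (W ^ 3 * V ^ 2) +
        24576 * d * (V * W ^ 3)) * sigmoid t1 +
      (64 * b * (W ^ 3 * V ^ 2) + 24576 * d * (V * W ^ 3)) * sigmoid t2 +
      3145728 * c * V ^ 3 * L t0 + (3145728 * d * W ^ 3 - 3145728 * c * V ^ 3) * L t1 +
      (-(3145728 * d * W ^ 3)) * L t2 - mu * (W ^ 3 * V ^ 3) * s t2 := by
  have n01 : t0 ≠ t1 := by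
    intro h
    rw [h, sub_self] at h01
    exact hW (by linarith)
  have n12 : t1 ≠ t2 := by
    intro h
    rw [h, sub_self] at h12
    exact hV (by linarith)
  unfold FF
  rw [Av_s n01, Av_s n12, Av6_sd n01, Av6_sd n12]
  unfold P C
  rw [h01, h12]
  generalize sigmoid t0 = A0
  generalize sigmoid t1 = A1
  generalize sigmoid t2 = A2
  generalize L t0 = B0
  generalize L t1 = B1
  generalize L t2 = B2
  generalize s t2 = Z
  field_simp
  ring

/-- closed form of `K0` -/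
lemma corner_K0 {g V W y1 y2 y3 : ℝ} (hV : V ≠ 0) (hW : W ≠ 0)
    (h01 : y2 - y1 = W / 64) (h12 : y3 - y2 = V / 64) :
    K0 g y1 y2 y3 * (W ^ 2 * V ^ 2) =
      1024 * (W ^ 2 * V ^ 2) * s (y3 + y3) -
      4096 * (32 + g) * (W ^ 2 * V) * (sigmoid (y3 + y3) - sigmoid (y2 + y3)) +
      4096 * g * (W * V ^ 2) * (sigmoid (y2 + y3) - sigmoid (y1 + y3)) +
      4096 * ((32 + g) * (32 + g)) * W ^ 2 *
        (L (y3 + y3) - 2 * L (y2 + y3) + L (y2 + y2)) -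
      8192 * (g * (32 + g)) * (W * V) *
        (L (y2 + y3) - L (y1 + y3) - L (y2 + y2) + L (y1 + y2)) +
      4096 * (g * g) * V ^ 2 * (L (y2 + y2) - 2 * L (y1 + y2) + L (y1 + y1)) := by
  have n01 : y1 ≠ y2 := by
    intro h
    rw [h, sub_self] at h01
    exact hW (by linarith)
  have n12 : y2 ≠ y3 := by
    intro h
    rw [h, sub_self] at h12
    exact hV (by linarith)
  unfold K0
  rw [Av_s (fun h => n12 (add_right_cancel h)), Av_s (fun h => n01 (add_right_cancel h)),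
    Av2_s n12 n12, Av2_s n01 n12, Av2_s n01 n01]
  have e1 : y3 + y3 - (y2 + y3) = V / 64 := by rw [← h12]; ring
  have e2 : y2 + y3 - (y1 + y3) = W / 64 := by rw [← h01]; ring
  rw [e1, e2, h01, h12]
  unfold P Pool.Agent.helper26.B3.W
  rw [add_comm y3 y2, add_comm y2 y1]
  generalize sigmoid (y3 + y3) = A0
  generalize sigmoid (y2 + y3) = A1
  generalize sigmoid (y1 + y3) = A2
  generalize L (y3 + y3) = B0
  generalize L (y2 + y3) = B1
  generalize L (y1 + y3) = B2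
  generalize L (y2 + y2) = B3
  generalize L (y1 + y2) = B4
  generalize L (y1 + y1) = B5
  generalize s (y3 + y3) = Z
  field_simp
  ring

/-- closed form of `G0` -/
lemma corner_G0 {g k V W y1 y2 y3 : ℝ} (hV : V ≠ 0) (hW : W ≠ 0)
    (h01 : y2 - y1 = W / 64) (h12 : y3 - y2 = V / 64) :
    G0 g k y1 y2 y3 * (W ^ 2 * V ^ 2) = 2048 * (
      (2048 + k) * (W * V ^ 2) * (sigmoid (y2 + y3) - sigmoid (y1 + y3)) -
      4096 * (32 + g) * (W * V) *
        (L (y2 + y3) - L (y1 + y3) - L (y2 + y2) + L (y1 + y2)) +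
      4096 * g * V ^ 2 * (L (y2 + y2) - 2 * L (y1 + y2) + L (y1 + y1))) := by
  have n01 : y1 ≠ y2 := by
    intro h
    rw [h, sub_self] at h01
    exact hW (by linarith)
  have n12 : y2 ≠ y3 := by
    intro h
    rw [h, sub_self] at h12
    exact hV (by linarith)
  unfold G0
  rw [Av_s (fun h => n01 (add_right_cancel h)), Av2_s n01 n12, Av2_s n01 n01]
  have e2 : y2 + y3 - (y1 + y3) = W / 64 := by rw [← h01]; ring
  rw [e2, h01, h12]
  unfold P Pool.Agent.helper26.B3.W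
  rw [add_comm y2 y1]
  generalize sigmoid (y2 + y3) = A1
  generalize sigmoid (y1 + y3) = A2
  generalize L (y2 + y3) = B1
  generalize L (y1 + y3) = B2
  generalize L (y2 + y2) = B3
  generalize L (y1 + y2) = B4
  generalize L (y1 + y1) = B5
  field_simp
  ring

/-- the final inequality -/
lemma corner_fin {n B E sg D F aD : ℝ} (hsg : sg = 1 ∨ sg = -1) (hD : sg * D = aD)
    (haD : 0 < aD) (herr : |n - 2 ^ 64 * (F * D)| ≤ B)
    (hc : 32768 * (sg * n + B) + E * aD ≤ 0) : F ≤ -E / (32768 * 2 ^ 64) := by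
  rw [le_div_iff₀ (by positivity)]
  have h := abs_le.1 herr
  have key : aD * (F * (32768 * 2 ^ 64)) ≤ aD * (-E) := by
    rcases hsg with rfl | rfl
    · rw [one_mul] at hD
      rw [← hD] at hc ⊢
      nlinarith [h.1, h.2]
    · have hD' : D = -aD := by linarith
      rw [hD'] at h
      nlinarith [h.1, h.2]
  exact le_of_mul_le_mul_left key haD

theorem corner_sound {a b c d mu lam g k E1 E2 E3 EG U P W : ℤ}
    (h : corner a b c d mu lam g k E1 E2 E3 EG U P W = true)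
    (hU : 0 ≤ U) (hP : 0 ≤ P) (hW : -64 ≤ W) (hb : P + 2 * W ≤ 2048) (hb' : 2 * U + P ≤ 2048)
    (hl : 0 ≤ lam) :
    (F1 a b c d mu ((U : ℝ) / 64) ((P : ℝ) / 64) ((W : ℝ) / 64) ≤
      -(E1 : ℝ) / (32768 * 2 ^ 64)) ∧
    (F2 a b c d mu ((U : ℝ) / 64) ((P : ℝ) / 64) ((W : ℝ) / 64) ≤
      -(E2 : ℝ) / (32768 * 2 ^ 64)) ∧
    (F3 a b c d mu lam g ((U : ℝ) / 64) ((P : ℝ) / 64) ((W : ℝ) / 64) ≤
      -(E3 : ℝ) / (32768 * 2 ^ 64)) ∧
    (0 < lam → (EG : ℝ) / (32768 * 2 ^ 64) ≤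
      GG g k ((U : ℝ) / 64) ((P : ℝ) / 64) ((W : ℝ) / 64)) := by
  unfold corner at h
  extract_lets V W2 V2 W3 V3 pa pb pc pc' pd pd' D x1 x2 x3 x4 x5 x6 x7 aD B S12 S13 S23 L11 L12
    L22 L13 L23 L33 S33 s33 n1 n2 n3 sg hh W22 W12 W11 y1 y2 y3 y4 y5 y6 k0 k0e lw z1 z2 z3 g0
    g0e at h
  rw [Bool.and_eq_true, Bool.and_eq_true, Bool.and_eq_true, Bool.and_eq_true,
    decide_eq_true_eq, decide_eq_true_eq, decide_eq_true_eq, decide_eq_true_eq] at h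
  obtain ⟨⟨⟨⟨hV, hW0⟩, h1⟩, h2⟩, h3⟩ := h
  have hVr : (0 : ℝ) < V := by exact_mod_cast hV
  have hWi : W ≠ 0 := by omega
  have hWr : (W : ℝ) ≠ 0 := by exact_mod_cast hWi
  have hVe : (V : ℝ) = U + P := by
    have : V = U + P := rfl
    rw [this]
    push_cast
    ring
  have hVd : V = U + P := rfl
  -- the values of the tables
  have tS11 := corner_TS (n := -P - 2 * W) (by omega) (t := -((P : ℝ) / 64) - 2 * ((W : ℝ) / 64))
    (by push_cast; ring)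
  have tS12 := corner_TS (n := -P - W) (by omega) (t := -((P : ℝ) / 64) - (W : ℝ) / 64)
    (by push_cast; ring)
  have tS22 := corner_TS (n := -P) (by omega) (t := -((P : ℝ) / 64)) (by push_cast; ring)
  have tS13 := corner_TS (n := U - W) (by omega) (t := (U : ℝ) / 64 - (W : ℝ) / 64)
    (by push_cast; ring)
  have tS23 := corner_TS (n := U) (by omega) (t := (U : ℝ) / 64) rfl
  have tS33 := corner_TS (n := 2 * U + P) (by omega) (t := 2 * ((U : ℝ) / 64) + (P : ℝ) / 64)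
    (by push_cast; ring)
  have tL11 := corner_TL (n := -P - 2 * W) (by omega) (t := -((P : ℝ) / 64) - 2 * ((W : ℝ) / 64))
    (by push_cast; ring)
  have tL12 := corner_TL (n := -P - W) (by omega) (t := -((P : ℝ) / 64) - (W : ℝ) / 64)
    (by push_cast; ring)
  have tL22 := corner_TL (n := -P) (by omega) (t := -((P : ℝ) / 64)) (by push_cast; ring)
  have tL13 := corner_TL (n := U - W) (by omega) (t := (U : ℝ) / 64 - (W : ℝ) / 64)
    (by push_cast; ring)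
  have tL23 := corner_TL (n := U) (by omega) (t := (U : ℝ) / 64) rfl
  have tL33 := corner_TL (n := 2 * U + P) (by omega) (t := 2 * ((U : ℝ) / 64) + (P : ℝ) / 64)
    (by push_cast; ring)
  have ts13 := corner_Ts (n := U - W) (by omega) (t := (U : ℝ) / 64 - (W : ℝ) / 64)
    (by push_cast; ring)
  have ts23 := corner_Ts (n := U) (by omega) (t := (U : ℝ) / 64) rfl
  have ts33 := corner_Ts (n := 2 * U + P) (by omega) (t := 2 * ((U : ℝ) / 64) + (P : ℝ) / 64)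
    (by push_cast; ring)
  -- the coefficients
  have c1 : (x1 : ℝ) = 24576 * c * (W * V ^ 3) - 64 * a * (W ^ 2 * V ^ 3) := by
    simp only [x1, pc, pa, W2, V3, V2]
    push_cast
    ring
  have c2 : (x2 : ℝ) = 64 * a * (W ^ 2 * V ^ 3) + 24576 * c * (W * V ^ 3) -
      64 * b * (W ^ 3 * V ^ 2) + 24576 * d * (V * W ^ 3) := by
    simp only [x2, pc, pa, pb, pd, W2, V3, V2, W3]
    push_cast
    ring
  have c3 : (x3 : ℝ) = 64 * b * (W ^ 3 * V ^ 2) + 24576 * d * (V * W ^ 3) := by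
    simp only [x3, pb, pd, W2, V2, W3]
    push_cast
    ring
  have c4 : (x4 : ℝ) = 3145728 * c * V ^ 3 := by
    simp only [x4, pc', V3, V2]
    push_cast
    ring
  have c5 : (x5 : ℝ) = 3145728 * d * W ^ 3 - 3145728 * c * V ^ 3 := by
    simp only [x5, pd', pc', V3, V2, W3, W2]
    push_cast
    ring
  have c6 : (x6 : ℝ) = -(3145728 * d * W ^ 3) := by
    simp only [x6, pd', W3, W2]
    push_cast
    ring
  have c7 : (x7 : ℝ) = mu * (W ^ 3 * V ^ 3) := by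
    simp only [x7, D, W3, W2, V3, V2]
    push_cast
    ring
  have hDr : (D : ℝ) = W ^ 3 * V ^ 3 := by
    simp only [D, W3, W2, V3, V2]
    push_cast
    ring
  have hsg : ((sg : ℤ) : ℝ) = 1 ∨ ((sg : ℤ) : ℝ) = -1 := by
    simp only [sg]
    split_ifs
    · left; norm_num
    · right; norm_num
  have hD0 : (D : ℝ) ≠ 0 := by
    rw [hDr]
    exact mul_ne_zero (pow_ne_zero 3 hWr) (pow_ne_zero 3 hVr.ne')
  have haDr : ((aD : ℤ) : ℝ) = |(D : ℝ)| := corner_ab D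
  have haD0 : (0 : ℝ) < aD := by
    rw [haDr]
    exact abs_pos.2 hD0
  have hsgD : ((sg : ℤ) : ℝ) * D = aD := by
    rw [haDr, hDr]
    simp only [sg]
    split_ifs with h0
    · have h0' : (0 : ℝ) < W := by exact_mod_cast h0
      rw [abs_of_pos (by positivity)]
      norm_num
    · have h0' : (W : ℝ) < 0 := by
        have : W < 0 := by omega
        exact_mod_cast this
      have h3' : (W : ℝ) ^ 3 < 0 := Odd.pow_neg (by decide) h0'
      rw [abs_of_neg (mul_neg_of_neg_of_pos h3' (by positivity))]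
      norm_num
  have f1 := corner_lin7 (x1 := x1) (x2 := x2) (x3 := x3) (x4 := x4) (x5 := x5) (x6 := x6)
    (x7 := x7) tS11 tS12 tS13 tL11 tL12 tL13 ts13
  have f2 := corner_lin7 (x1 := x1) (x2 := x2) (x3 := x3) (x4 := x4) (x5 := x5) (x6 := x6)
    (x7 := x7) tS12 tS22 tS23 tL12 tL22 tL23 ts23
  have f3 := corner_lin7 (x1 := x1) (x2 := x2) (x3 := x3) (x4 := x4) (x5 := x5) (x6 := x6)
    (x7 := x7) tS13 tS23 tS33 tL13 tL23 tL33 ts33
  rw [c1, c2, c3, c4, c5, c6, c7] at f1 f2 f3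
  rw [← corner_FF hVr.ne' hWr (by ring) (by rw [hVe]; ring), ← hDr] at f1 f2 f3
  have h1' : (32768 * ((sg : ℝ) * n1 + B) + E1 * aD ≤ 0) := by exact_mod_cast h1
  have h2' : (32768 * ((sg : ℝ) * n2 + B) + E2 * aD ≤ 0) := by exact_mod_cast h2
  refine ⟨corner_fin hsg hsgD haD0 f1 h1', corner_fin hsg hsgD haD0 f2 h2', ?_⟩
  by_cases hlam : lam = 0
  · rw [if_pos hlam, decide_eq_true_eq] at h3
    have h3' : (32768 * ((sg : ℝ) * n3 + B) + E3 * aD ≤ 0) := by exact_mod_cast h3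
    refine ⟨?_, fun h0 => absurd h0 (by omega)⟩
    have h5 := corner_fin hsg hsgD haD0 f3 h3'
    unfold F3
    rw [hlam, Int.cast_zero, zero_mul, sub_zero]
    exact h5
  · rw [if_neg hlam] at h3
    rw [Bool.and_eq_true, decide_eq_true_eq, decide_eq_true_eq] at h3
    obtain ⟨h3, h4⟩ := h3
    have e33 : (U : ℝ) / 64 + (P : ℝ) / 64 / 2 + ((U : ℝ) / 64 + (P : ℝ) / 64 / 2) =
        2 * ((U : ℝ) / 64) + (P : ℝ) / 64 := by ring
    have e23 : -((P : ℝ) / 64 / 2) + ((U : ℝ) / 64 + (P : ℝ) / 64 / 2) = (U : ℝ) / 64 := by ring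
    have e13 : -((P : ℝ) / 64 / 2) - (W : ℝ) / 64 + ((U : ℝ) / 64 + (P : ℝ) / 64 / 2) =
        (U : ℝ) / 64 - (W : ℝ) / 64 := by ring
    have e22 : -((P : ℝ) / 64 / 2) + -((P : ℝ) / 64 / 2) = -((P : ℝ) / 64) := by ring
    have e12 : -((P : ℝ) / 64 / 2) - (W : ℝ) / 64 + -((P : ℝ) / 64 / 2) =
        -((P : ℝ) / 64) - (W : ℝ) / 64 := by ring
    have e11 : -((P : ℝ) / 64 / 2) - (W : ℝ) / 64 + (-((P : ℝ) / 64 / 2) - (W : ℝ) / 64) =
        -((P : ℝ) / 64) - 2 * ((W : ℝ) / 64) := by ring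
    have q21 : -((P : ℝ) / 64 / 2) - (-((P : ℝ) / 64 / 2) - (W : ℝ) / 64) = (W : ℝ) / 64 := by
      ring
    have q32 : (U : ℝ) / 64 + (P : ℝ) / 64 / 2 - -((P : ℝ) / 64 / 2) = (V : ℝ) / 64 := by
      rw [hVe]; ring
    have kk := corner_K0 (g := (g : ℝ)) hVr.ne' hWr q21 q32
    have gg := corner_G0 (g := (g : ℝ)) (k := (k : ℝ)) hVr.ne' hWr q21 q32
    rw [e33, e23, e13, e22, e12, e11] at kk
    rw [e23, e13, e22, e12, e11] at gg
    -- errors of the differences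
    have dS : |((S33 : ℝ) - S23) - 2 ^ 64 * (sigmoid (2 * ((U : ℝ) / 64) + (P : ℝ) / 64) -
        sigmoid ((U : ℝ) / 64))| ≤ 32 := by
      have a1 := abs_le.1 tS33
      have a2 := abs_le.1 tS23
      rw [abs_le]
      constructor <;> linarith [a1.1, a1.2, a2.1, a2.2]
    have dS' : |((S23 : ℝ) - S13) - 2 ^ 64 * (sigmoid ((U : ℝ) / 64) -
        sigmoid ((U : ℝ) / 64 - (W : ℝ) / 64))| ≤ 32 := by
      have a1 := abs_le.1 tS23
      have a2 := abs_le.1 tS13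
      rw [abs_le]
      constructor <;> linarith [a1.1, a1.2, a2.1, a2.2]
    have dW22 : |((W22 : ℤ) : ℝ) - 2 ^ 64 * (L (2 * ((U : ℝ) / 64) + (P : ℝ) / 64) -
        2 * L ((U : ℝ) / 64) + L (-((P : ℝ) / 64)))| ≤ 64 := by
      have a1 := abs_le.1 tL33
      have a2 := abs_le.1 tL23
      have a3 := abs_le.1 tL22
      simp only [W22, L33, L23, L22]
      push_cast
      rw [abs_le]
      constructor <;> linarith [a1.1, a1.2, a2.1, a2.2, a3.1, a3.2]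
    have dW12 : |((W12 : ℤ) : ℝ) - 2 ^ 64 * (L ((U : ℝ) / 64) -
        L ((U : ℝ) / 64 - (W : ℝ) / 64) - L (-((P : ℝ) / 64)) +
        L (-((P : ℝ) / 64) - (W : ℝ) / 64))| ≤ 64 := by
      have a1 := abs_le.1 tL23
      have a2 := abs_le.1 tL13
      have a3 := abs_le.1 tL22
      have a4 := abs_le.1 tL12
      simp only [W12, L13, L23, L22, L12]
      push_cast
      rw [abs_le]
      constructor <;> linarith [a1.1, a1.2, a2.1, a2.2, a3.1, a3.2, a4.1, a4.2]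
    have dW11 : |((W11 : ℤ) : ℝ) - 2 ^ 64 * (L (-((P : ℝ) / 64)) -
        2 * L (-((P : ℝ) / 64) - (W : ℝ) / 64) +
        L (-((P : ℝ) / 64) - 2 * ((W : ℝ) / 64)))| ≤ 64 := by
      have a1 := abs_le.1 tL22
      have a2 := abs_le.1 tL12
      have a3 := abs_le.1 tL11
      simp only [W11, L22, L12, L11]
      push_cast
      rw [abs_le]
      constructor <;> linarith [a1.1, a1.2, a2.1, a2.2, a3.1, a3.2]
    have ck : |((k0 : ℤ) : ℝ) - 2 ^ 64 * (K0 g (-((P : ℝ) / 64 / 2) - (W : ℝ) / 64)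
        (-((P : ℝ) / 64 / 2)) ((U : ℝ) / 64 + (P : ℝ) / 64 / 2) * ((W : ℝ) ^ 2 * (V : ℝ) ^ 2))|
        ≤ ((k0e : ℤ) : ℝ) := by
      rw [kk]
      have b1 := abs_le.1 (corner_term (x := ((y1 : ℤ) : ℝ)) ts33)
      have b2 := abs_le.1 (corner_term (x := ((y2 : ℤ) : ℝ)) dS)
      have b3 := abs_le.1 (corner_term (x := ((y3 : ℤ) : ℝ)) dS')
      have b4 := abs_le.1 (corner_term (x := ((y4 : ℤ) : ℝ)) dW22)
      have b5 := abs_le.1 (corner_term (x := ((y5 : ℤ) : ℝ)) dW12)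
      have b6 := abs_le.1 (corner_term (x := ((y6 : ℤ) : ℝ)) dW11)
      have r1 : ((y1 : ℤ) : ℝ) = 1024 * ((W : ℝ) ^ 2 * (V : ℝ) ^ 2) := by
        simp only [y1, W2, V2]; push_cast; ring
      have r2 : ((y2 : ℤ) : ℝ) = 4096 * (32 + g) * ((W : ℝ) ^ 2 * (V : ℝ)) := by
        simp only [y2, W2, hh]; push_cast; ring
      have r3 : ((y3 : ℤ) : ℝ) = 4096 * g * ((W : ℝ) * (V : ℝ) ^ 2) := by
        simp only [y3, V2]; push_cast; ring
      have r4 : ((y4 : ℤ) : ℝ) = 4096 * ((32 + g) * (32 + g)) * (W : ℝ) ^ 2 := by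
        simp only [y4, W2, hh]; push_cast; ring
      have r5 : ((y5 : ℤ) : ℝ) = 8192 * (g * (32 + g)) * ((W : ℝ) * (V : ℝ)) := by
        simp only [y5, hh]; push_cast; ring
      have r6 : ((y6 : ℤ) : ℝ) = 4096 * (g * g) * (V : ℝ) ^ 2 := by
        simp only [y6, V2]; push_cast; ring
      have rk : ((k0 : ℤ) : ℝ) = y1 * s33 - y2 * ((S33 : ℝ) - S23) + y3 * ((S23 : ℝ) - S13) +
          y4 * W22 - y5 * W12 + y6 * W11 := by
        simp only [k0]; push_cast; ring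
      have rke : ((k0e : ℤ) : ℝ) = 16 * (|((y1 : ℤ) : ℝ)| + 2 * |((y2 : ℤ) : ℝ)| +
          2 * |((y3 : ℤ) : ℝ)| + 4 * |((y4 : ℤ) : ℝ)| + 4 * |((y5 : ℤ) : ℝ)| +
          4 * |((y6 : ℤ) : ℝ)|) := by
        simp only [k0e]
        push_cast
        rw [corner_ab, corner_ab, corner_ab, corner_ab, corner_ab, corner_ab]
      rw [rk, rke, ← r1, ← r2, ← r3, ← r4, ← r5, ← r6, abs_le]
      clear_value y1 y2 y3 y4 y5 y6 W22 W12 W11
      constructor <;> linarith [b1.1, b1.2, b2.1, b2.2, b3.1, b3.2, b4.1, b4.2, b5.1, b5.2,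
        b6.1, b6.2]
    have cg : |((g0 : ℤ) : ℝ) * 2048 - 2 ^ 64 * (G0 g k (-((P : ℝ) / 64 / 2) - (W : ℝ) / 64)
        (-((P : ℝ) / 64 / 2)) ((U : ℝ) / 64 + (P : ℝ) / 64 / 2) * ((W : ℝ) ^ 2 * (V : ℝ) ^ 2))|
        ≤ ((g0e : ℤ) : ℝ) * 2048 := by
      rw [gg]
      have b1 := abs_le.1 (corner_term (x := ((z1 : ℤ) : ℝ)) dS')
      have b2 := abs_le.1 (corner_term (x := ((z2 : ℤ) : ℝ)) dW12)
      have b3 := abs_le.1 (corner_term (x := ((z3 : ℤ) : ℝ)) dW11)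
      have r1 : ((z1 : ℤ) : ℝ) = (2048 + k) * ((W : ℝ) * (V : ℝ) ^ 2) := by
        simp only [z1, V2]; push_cast; ring
      have r2 : ((z2 : ℤ) : ℝ) = 4096 * (32 + g) * ((W : ℝ) * (V : ℝ)) := by
        simp only [z2, hh]; push_cast; ring
      have r3 : ((z3 : ℤ) : ℝ) = 4096 * g * (V : ℝ) ^ 2 := by
        simp only [z3, V2]; push_cast; ring
      have rk : ((g0 : ℤ) : ℝ) = z1 * ((S23 : ℝ) - S13) - z2 * W12 + z3 * W11 := by
        simp only [g0]; push_cast; ring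
      have rke : ((g0e : ℤ) : ℝ) = 16 * (2 * |((z1 : ℤ) : ℝ)| + 4 * |((z2 : ℤ) : ℝ)| +
          4 * |((z3 : ℤ) : ℝ)|) := by
        simp only [g0e]
        push_cast
        rw [corner_ab, corner_ab, corner_ab]
      rw [rk, rke, ← r1, ← r2, ← r3, abs_le]
      clear_value z1 z2 z3 W12 W11
      constructor <;> linarith [b1.1, b1.2, b2.1, b2.2, b3.1, b3.2]
    have h3' : (32768 * ((sg : ℝ) * ((n3 : ℝ) - lw * k0) + (B + |((lw : ℤ) : ℝ)| * k0e)) +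
        E3 * aD ≤ 0) := by
      rw [← corner_ab]
      exact_mod_cast h3
    refine ⟨?_, fun _ => ?_⟩
    · refine corner_fin (n := (n3 : ℝ) - lw * k0) (B := B + |((lw : ℤ) : ℝ)| * k0e)
        hsg hsgD haD0 ?_ h3'
      have rl : ((lw : ℤ) : ℝ) = lam * ((W : ℝ) * V) := by
        simp only [lw]; push_cast; ring
      have eF : F3 (a : ℝ) b c d mu lam g ((U : ℝ) / 64) ((P : ℝ) / 64) ((W : ℝ) / 64) * D =
          FF a b c d mu ((U : ℝ) / 64 - (W : ℝ) / 64) ((U : ℝ) / 64)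
            (2 * ((U : ℝ) / 64) + (P : ℝ) / 64) * D -
          lw * (K0 g (-((P : ℝ) / 64 / 2) - (W : ℝ) / 64)
            (-((P : ℝ) / 64 / 2)) ((U : ℝ) / 64 + (P : ℝ) / 64 / 2) *
            ((W : ℝ) ^ 2 * (V : ℝ) ^ 2)) := by
        unfold F3
        rw [rl, hDr]
        ring
      rw [eF]
      have b1 := abs_le.1 (corner_term (x := ((lw : ℤ) : ℝ)) ck)
      have b2 := abs_le.1 f3
      have b2a := b2.1
      have b2b := b2.2
      rw [abs_le]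
      change -((B : ℤ) : ℝ) ≤ ((n3 : ℤ) : ℝ) - _ at b2a
      change ((n3 : ℤ) : ℝ) - _ ≤ ((B : ℤ) : ℝ) at b2b
      clear_value lw k0 k0e n3 B
      constructor <;> linarith [b1.1, b1.2]
    · have h4' : (EG : ℝ) * ((W : ℝ) ^ 2 * (V : ℝ) ^ 2) ≤ 67108864 * ((g0 : ℝ) - g0e) := by
        have h5 : (EG : ℝ) * ((W2 : ℝ) * V2) ≤ 67108864 * ((g0 : ℝ) - g0e) := by
          exact_mod_cast h4
        have h6 : ((W2 : ℤ) : ℝ) * ((V2 : ℤ) : ℝ) = (W : ℝ) ^ 2 * (V : ℝ) ^ 2 := by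
          simp only [W2, V2]; push_cast; ring
        rwa [h6] at h5
      have hp : (0 : ℝ) < (W : ℝ) ^ 2 * (V : ℝ) ^ 2 := by positivity
      have b1 := (abs_le.1 cg).2
      rw [div_le_iff₀ (by positivity)]
      refine le_of_mul_le_mul_right ?_ hp
      unfold GG
      clear_value g0 g0e
      linarith [b1, h4']

end Pool.Agent.helper26.B3
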